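import Pool.Agent.Helper54.SZ.Defs

/-! The signed master inequality along the multiples of `s`. -/

set_option autoImplicit false

namespace Pool.Agent.Helper91.SZ

open Pool.Agent.Helper42.LS Pool.Agent.Helper42.LK Pool.Agent.Helper54.LS Pool.Agent.Helper92.LV
open Pool.Agent.Helper54.SZ

theorem sum_dvd_mul (J s : ℕ) (hs : 1 ≤ s) (F : ℕ → ℝ) :
    ∑ k ∈ (Finset.Icc 1 (s * J)).filter (fun k => s ∣ k), F k =
      ∑ j ∈ Finset.Icc 1 J, F (s * j) := by
  refine (Finset.sum_nbij (fun i => s * i) ?_ ?_ ?_ ?_).symm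
  · intro i hi
    rw [Finset.mem_Icc] at hi
    rw [Finset.mem_filter, Finset.mem_Icc]
    exact ⟨⟨Nat.mul_pos hs hi.1, Nat.mul_le_mul_left s hi.2⟩, Dvd.intro i rfl⟩
  · intro i _ j _ h
    exact Nat.eq_of_mul_eq_mul_left hs h
  · intro k hk
    rw [Finset.mem_coe, Finset.mem_filter, Finset.mem_Icc] at hk
    obtain ⟨⟨h1, h2⟩, i, rfl⟩ := hk
    refine ⟨i, ?_, rfl⟩
    rw [Finset.mem_coe, Finset.mem_Icc]
    refine ⟨?_, Nat.le_of_mul_le_mul_left h2 hs⟩
    rcases Nat.eq_zero_or_pos i with h | h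
    · subst h
      omega
    · exact h
  · intro i _
    rfl

theorem dvd_mul_iff_div_gcd (m s j : ℕ) (hm : 1 ≤ m) :
    m ∣ s * j ↔ m / Nat.gcd m s ∣ j := by
  have hg : 0 < Nat.gcd m s := Nat.gcd_pos_of_pos_left s hm
  have hcop : Nat.Coprime (m / Nat.gcd m s) (s / Nat.gcd m s) := Nat.coprime_div_gcd_div_gcd hg
  have h1 : m = Nat.gcd m s * (m / Nat.gcd m s) :=
    (Nat.mul_div_cancel' (Nat.gcd_dvd_left m s)).symm
  have h2 : s = Nat.gcd m s * (s / Nat.gcd m s) :=
    (Nat.mul_div_cancel' (Nat.gcd_dvd_right m s)).symm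
  constructor
  · intro h
    have h3 : Nat.gcd m s * (m / Nat.gcd m s) ∣ Nat.gcd m s * ((s / Nat.gcd m s) * j) := by
      rw [← mul_assoc, ← h1, ← h2]
      exact h
    have h4 := Nat.dvd_of_mul_dvd_mul_left hg h3
    exact hcop.dvd_of_dvd_mul_left h4
  · intro h
    have h3 : Nat.gcd m s * (m / Nat.gcd m s) ∣ Nat.gcd m s * ((s / Nat.gcd m s) * j) :=
      Nat.mul_dvd_mul_left _ (h.mul_left _)
    rw [← mul_assoc, ← h1, ← h2] at h3
    exact h3

/-- **Row MSM.** -/
theorem MSM : ST_MSM := by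
  intro C₀ e V w t hM J β hJ hDC s hs
  have hsJ : 1 ≤ s * J := Nat.mul_pos hs hJ
  let β' : ℕ → ℝ := fun k => if s ∣ k then β (k / s) else 0
  have hβ' : ∀ j : ℕ, β' (s * j) = β j := by
    intro j
    show (if s ∣ s * j then β (s * j / s) else 0) = β j
    rw [if_pos (Dvd.intro j rfl), Nat.mul_div_cancel_left j hs]
  -- a sum over all `k` with a factor that vanishes off the multiples of `s`
  have key : ∀ F : ℕ → ℝ, (∀ k, ¬ s ∣ k → F k = 0) →
      ∑ k ∈ Finset.Icc 1 (s * J), F k = ∑ j ∈ Finset.Icc 1 J, F (s * j) := by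
    intro F hF
    rw [← sum_dvd_mul J s hs F, Finset.sum_filter]
    refine Finset.sum_congr rfl fun k _ => ?_
    by_cases h : s ∣ k
    · rw [if_pos h]
    · rw [if_neg h, hF k h]
  have hz : ∀ k, ¬ s ∣ k → β' k = 0 := fun k h => if_neg h
  have hDC' : DC (s * J) β' := by
    intro m hm
    rw [Finset.sum_filter, key (fun k => if m ∣ k then β' k else 0)]
    · have h1 : 1 ≤ m / Nat.gcd m s :=
        Nat.div_pos (Nat.le_of_dvd hm (Nat.gcd_dvd_left m s)) (Nat.gcd_pos_of_pos_left s hm)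
      have h2 := hDC (m / Nat.gcd m s) h1
      rw [Finset.sum_filter] at h2
      refine h2.trans_eq (Finset.sum_congr rfl fun j _ => ?_)
      rw [hβ' j]
      by_cases h : m ∣ s * j
      · rw [if_pos h, if_pos ((dvd_mul_iff_div_gcd m s j hm).1 h)]
      · rw [if_neg h, if_neg (fun h' => h ((dvd_mul_iff_div_gcd m s j hm).2 h'))]
    · intro k hk
      show (if m ∣ k then β' k else 0) = 0
      rw [hz k hk]
      simp
  have h := hM (s * J) β' hsJ hDC'
  rw [key (fun k => β' k * (∑ v ∈ V, w v * B2 (k * t v))) (fun k hk => by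
      show β' k * _ = 0
      rw [hz k hk, zero_mul]),
    key (fun k => β' k * (k : ℝ) ^ 2) (fun k hk => by
      show β' k * _ = 0
      rw [hz k hk, zero_mul]),
    key (fun k => |β' k|) (fun k hk => by
      show |β' k| = 0
      rw [hz k hk, abs_zero])] at h
  simp only [hβ', Nat.cast_mul] at h
  have h3 : ∑ j ∈ Finset.Icc 1 J, β j * ((s : ℝ) * j) ^ 2 =
      (s : ℝ) ^ 2 * ∑ j ∈ Finset.Icc 1 J, β j * (j : ℝ) ^ 2 := by
    rw [Finset.mul_sum]
    refine Finset.sum_congr rfl fun j _ => ?_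
    ring
  rw [h3] at h
  linarith

end Pool.Agent.Helper91.SZ
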